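import Pool.Agent.PFD.StmtsD3

/-!
# Squad PFD, row ACR: the action on `R1`
-/

open scoped BigOperators

noncomputable section

namespace Pool.Agent.PFD.D3.H63

open MvPolynomial

section
variable {ℓ : ℕ} {R F E B R1 : Type} [CommRing R] [Field F] [Group E] [Fintype B]
  {c : D2.Cdv R F} {J : B → Type} [∀ b, Fintype (J b)] [∀ b, DecidableEq (J b)] {a : B → ℕ}
  {D : ∀ b, E →* Matrix (J b) (J b) R} [CommRing R1] [Algebra R R1]

/-- the ideal is stable -/
theorem lb_span (q : Qua R F E B c ℓ a J D R1) (e : E) (p : MvPolynomial (Σ b, J b) R)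
    (hp : q.pm p = 0) : q.pm (Lb D e p) = 0 := by
  rw [q.ker] at hp ⊢
  have h1 : Ideal.span (Set.range q.f) ≤
      (Ideal.span (Set.range q.f)).comap (Lb D e).toRingHom := by
    rw [Ideal.span_le]
    rintro _ ⟨i, rfl⟩
    exact q.fe e i
  exact h1 hp

/-- the action of one element -/
def one (q : Qua R F E B c ℓ a J D R1) (e : E) : R1 →ₐ[R] R1 :=
  AlgHom.liftOfSurjective q.pm q.sur (q.pm.comp (Lb D e)) (by
    intro p hp
    exact lb_span q e p hp)

theorem one_pm (q : Qua R F E B c ℓ a J D R1) (e : E) (p : MvPolynomial (Σ b, J b) R) :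
    one q e (q.pm p) = q.pm (Lb D e p) :=
  AlgHom.liftOfSurjective_apply _ _ _ _ _

/-- the action -/
def actm (pac : PacStmt) (q : Qua R F E B c ℓ a J D R1) : E →* (R1 →ₐ[R] R1) where
  toFun := one q
  map_one' := by
    apply AlgHom.ext
    intro x
    obtain ⟨p, rfl⟩ := q.sur x
    rw [one_pm, (pac R E B J D).1]
    rfl
  map_mul' := fun e g => by
    apply AlgHom.ext
    intro x
    obtain ⟨p, rfl⟩ := q.sur x
    rw [one_pm, (pac R E B J D).2.1]
    show _ = one q e (one q g (q.pm p))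
    rw [one_pm, one_pm]

end

/-- Row ACR. -/
theorem acr (pac : PacStmt) : AcrStmt := by
  intro ℓ _ R F V E B R1 _ _ _ _ _ _ c φ J _ _ Z D _ _ q hD
  refine ⟨(AlgEquiv.algHomUnitsEquiv R R1).toMonoidHom.comp (actm pac q).toHomUnits, ?_, ?_⟩
  · intro e p
    show one q e (q.pm p) = _
    exact one_pm q e p
  · intro rho hr e x
    obtain ⟨p, rfl⟩ := q.sur x
    have h1 : ((rho.q.comp (q.pm : MvPolynomial (Σ b, J b) R →+* R1)).comp
        (Lb D e : MvPolynomial (Σ b, J b) R →+* MvPolynomial (Σ b, J b) R)) =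
        ((acV F φ e : MonoidAlgebra F V →+* MonoidAlgebra F V).comp
          (rho.q.comp (q.pm : MvPolynomial (Σ b, J b) R →+* R1))) := by
      apply MvPolynomial.ringHom_ext
      · intro r
        show rho.q (q.pm (Lb D e (C r))) = acV F φ e (rho.q (q.pm (C r)))
        have h2 : (C r : MvPolynomial (Σ b, J b) R) = algebraMap R _ r := rfl
        rw [h2, AlgHom.commutes, AlgHom.commutes, rho.sc, AlgEquiv.commutes]
      · rintro ⟨b, j⟩
        show rho.q (q.pm (Lb D e (X ⟨b, j⟩))) = acV F φ e (rho.q (q.pm (X ⟨b, j⟩)))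
        rw [(pac R E B J D).2.2.1, hr, Z.xe, map_sum, map_sum]
        refine Finset.sum_congr rfl fun k _ => ?_
        have h2 : (C (D b e k j) : MvPolynomial (Σ b, J b) R) = algebraMap R _ (D b e k j) := rfl
        rw [map_mul, map_mul, hr, h2, AlgHom.commutes, rho.sc, hD, Algebra.smul_def]
    have h3 := RingHom.congr_fun h1 p
    show rho.q (one q e (q.pm p)) = _
    rw [one_pm]
    exact h3

end Pool.Agent.PFD.D3.H63
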