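import Pool.Agent.PFD.StmtsD5a
import Pool.Agent.Helper34_K9.INX

/-!
# Squad PFD, row EGX: the groups
-/

open scoped BigOperators

noncomputable section

namespace Pool.Agent.PFD.H63

open Pool.Agent.Helper51_AWC Pool.Agent.Helper79_WRA Pool.Agent.PP Pool.Agent.PP.KF
open Pool.Agent.PP.K9 Pool.Agent.PP.K9.H97 Pool.Agent.PP.H75 Pool.Agent.PP.T3 Pool.Agent.PP.T2
open Pool.Agent.PFC (Jd Crn jal Pj PIn Ctf ls Cz cv)

attribute [local instance] Ideal.Quotient.field

theorem card_Ei {F : Type} {G : Type} [Group G] (V : Subgroup G) (γ : G → F) :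
    Nat.card (Ei V γ) = ix V γ := by
  have h1 := Subgroup.relIndex_ker ((Tg V γ).subgroupOf (Subgroup.normalizer (V : Set G)))
    V.normalizerMonoidHom
  rw [Subgroup.normalizerMonoidHom_ker] at h1
  have h2 : Tg V γ ≤ Subgroup.normalizer (V : Set G) := inf_le_left
  rw [Subgroup.relIndex_subgroupOf h2] at h1
  exact h1.symm

/-- Row EGX. -/
theorem egx (spf : SpfStmt) : EgxStmt := by
  intro ℓ hℓ M hMm hM G _ _ e V γ hL U W hS
  have hix : ¬ ℓ ∣ ix V γ :=
    K9.H34.inx ℓ M hM G e hL.blk V hL.tp hL.ab γ hL.gam.supp hL.gam.blk hL.und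
  let iC : CommGroup V := { (inferInstance : Group V) with
    mul_comm := fun a b => Subtype.ext (hL.ab a a.2 b b.2) }
  have hfin : Finite V := inferInstance
  have hfinM : Finite (MulAut V) := Finite.of_injective (fun f : MulAut V => (f : V → V))
    DFunLike.coe_injective
  have hmap : ∀ x : Ei V γ, ∃ t ∈ Tg V γ, ∀ w : V, (((x : MulAut V) w : V) : G) =
      t * w * t⁻¹ := by
    rintro ⟨x, t, ht, rfl⟩
    exact ⟨t, ht, fun w => rfl⟩
  have hmap2 : ∀ t ∈ Tg V γ, ∃ x : Ei V γ, ∀ w : V, (((x : MulAut V) w : V) : G) =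
      t * w * t⁻¹ := by
    intro t ht
    have h2 : t ∈ Subgroup.normalizer (V : Set G) := (Subgroup.mem_inf.1 ht).1
    exact ⟨⟨V.normalizerMonoidHom ⟨t, h2⟩, ⟨⟨t, h2⟩, ht, rfl⟩⟩, fun w => rfl⟩
  have hW : (W.subgroupOf V).map V.subtype = W := Subgroup.map_subgroupOf_eq_of_le hS.lw
  refine ⟨V, Ei V γ, iC, Fintype.ofFinite V, inferInstance, Fintype.ofFinite _, V.subtype,
    (Ei V γ).subtype, W.subgroupOf V, Subtype.val_injective, V.range_subtype, hW, ?_,
    ⟨MulEquiv.refl _⟩, hmap2, hmap⟩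
  refine ⟨hℓ.out, hL.tp.pg, ?_, ?_, ?_, ?_, ?_⟩
  · obtain ⟨u, hu1⟩ := Subgroup.ne_bot_iff_exists_ne_one.1 hS.nt
    refine ⟨⟨u, hS.lu u.2⟩, fun h => hu1 ?_⟩
    have h1 : (u : G) ∈ U ⊓ W := Subgroup.mem_inf.2 ⟨u.2, Subgroup.mem_subgroupOf.1 h⟩
    rw [hS.dj] at h1
    exact Subtype.ext (Subgroup.mem_bot.1 h1)
  · rw [card_Ei]
    exact hix
  · intro x u hu
    obtain ⟨t, ht, h1⟩ := hmap x
    have h2 := hS.sw t ht u (Subgroup.mem_subgroupOf.1 hu)
    rw [← h1 u] at h2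
    exact h2
  · refine ⟨U.subgroupOf V, ⟨?_, ?_⟩, ?_⟩
    · rw [disjoint_iff]
      refine (Subgroup.eq_bot_iff_forall _).2 fun u hu => ?_
      have h1 := Subgroup.mem_inf.1 hu
      have h2 : (u : G) ∈ U ⊓ W := Subgroup.mem_inf.2
        ⟨Subgroup.mem_subgroupOf.1 h1.1, Subgroup.mem_subgroupOf.1 h1.2⟩
      rw [hS.dj] at h2
      exact Subtype.ext (Subgroup.mem_bot.1 h2)
    · rw [codisjoint_iff]
      have h1 := Subgroup.subgroupOf_sup hS.lu hS.lw
      rw [hS.jn, Subgroup.subgroupOf_self] at h1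
      exact h1.symm
    · intro x u hu
      obtain ⟨t, ht, h1⟩ := hmap x
      have h2 := hS.su t ht u (Subgroup.mem_subgroupOf.1 hu)
      rw [← h1 u] at h2
      exact h2
  · intro x u hxu
    obtain ⟨t, ht, h1⟩ := hmap x
    have h2 : t * (u : G) = u * t := by
      have h3 := h1 u
      have h4 : (((x : MulAut V) u : V) : G) = u := congrArg Subtype.val hxu
      rw [h4] at h3
      calc t * (u : G) = t * u * t⁻¹ * t := by group
        _ = u * t := by rw [← h3]
    rcases spf ℓ (FF M) G e V γ hL U W hS t ht u u.2 h2 with h3 | h3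
    · left
      apply Subtype.ext
      apply MulEquiv.ext
      intro w
      apply Subtype.ext
      have h4 := h1 w
      rw [h4, ← (Subgroup.mem_centralizer_iff.1 h3 w w.2)]
      simp
    · right
      exact Subgroup.mem_subgroupOf.2 h3

end Pool.Agent.PFD.H63
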