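import Pool.Agent.PFD.StmtsD5b
import Pool.Agent.Helper20_PP.Rst

/-!
# Squad PFD, row LNT: the local block of a central element
-/

open scoped BigOperators

noncomputable section

namespace Pool.Agent.PFD.H63

open Pool.Agent.Helper51_AWC Pool.Agent.Helper79_WRA Pool.Agent.PP Pool.Agent.PP.KF
open Pool.Agent.PP.K9 Pool.Agent.PP.K9.H97 Pool.Agent.PP.H75 Pool.Agent.PP.T3 Pool.Agent.PP.T2

/-- a block of the whole group under the block `e` -/
theorem ln_top {F G : Type} [Field F] [Group G] [Finite G] (e b : G → F) (he : IsBlk e)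
    (X : Subgroup G) (hX : X = ⊤) (hb : Bx X b) (hu : mulF (fun t : X => e t) (fun t : X => b t) =
      fun t : X => b t) : ln (fun t : X => b t) = ln e := by
  subst hX
  have he' : IsBlk (fun t : (⊤ : Subgroup G) => e t) :=
    Pool.Agent.PP.H20.IsBlk_equiv Subgroup.topEquiv he
  have h1 : (fun t : (⊤ : Subgroup G) => b t) = fun t : (⊤ : Subgroup G) => e t := by
    rcases he'.2.2 _ hb.blk.1 with h | h
    · exact hu.symm.trans h
    · exact absurd (hu.symm.trans h) hb.blk.2.1
  rw [h1]
  exact Pool.Agent.PP.H75.cnt_equiv Subgroup.topEquiv e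

/-- Row LNT. -/
theorem lnt : LntStmt := by
  intro ℓ F _ hF G _ _ e V γ hL v hv hc b hb
  refine ln_top e b hL.blk (Cu v) ?_ hb.blk hb.und
  rw [eq_top_iff]
  intro x _
  exact Subgroup.mem_centralizer_singleton_iff.2 (Subgroup.mem_center_iff.1 hc x)

end Pool.Agent.PFD.H63
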